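import Pool.Agent.H87.SH.Targets

/-!
# Row FUB of the board `hlf_modules` (MP_2697e3_an)
-/

set_option autoImplicit false

namespace Pool.Agent.H35.SH

open MeasureTheory Metric Set Filter Topology Pool.Agent.H87.SN Pool.Agent.H87.SH
open scoped ContDiff RealInnerProductSpace ENNReal

theorem vol_ball (n : ℕ) (x : E n) (r : ℝ) (hr : 0 < r) :
    volume (ball x r) = ENNReal.ofReal (r ^ n) * volume (ball (0 : E n) 1) := by
  have h := Measure.addHaar_ball_of_pos (volume : Measure (E n)) x hr
  rw [finrank_euclideanSpace_fin] at h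
  exact h

theorem pf_FUB : T_FUB := by
  intro n C hC
  have hc0 : volume (ball (0 : E n) 1) ≠ 0 := (measure_ball_pos volume _ one_pos).ne'
  have hct : volume (ball (0 : E n) 1) ≠ ⊤ := measure_ball_lt_top.ne
  set c' : ℝ := (volume (ball (0 : E n) 1)).toReal with hc'
  have hcp : 0 < c' := ENNReal.toReal_pos hc0 hct
  have hcE : volume (ball (0 : E n) 1) = ENNReal.ofReal c' := (ENNReal.ofReal_toReal hct).symm
  refine ⟨25 / 16 * 9 ^ n * C, by positivity, ?_⟩
  intro R h e hh he hL hR hRp hloc
  have hRc : Continuous R := hL.continuous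
  have hRm : Measurable R := hRc.measurable
  have lip : ∀ x y : E n, R x ≤ R y + dist x y := by
    intro x y
    have h1 := hL.dist_le_mul x y
    rw [Real.dist_eq, NNReal.coe_one, one_mul] at h1
    linarith [le_abs_self (R x - R y)]
  have b2 : ∀ x ∈ ball (0 : E n) (3 / 2), 0 < R x := fun x hx =>
    hRp x (ball_subset_ball (by norm_num) hx)
  -- the weights
  let w : E n → ℝ≥0∞ := fun x => ENNReal.ofReal (R x ^ 2 / R x ^ n)
  let w' : E n → ℝ≥0∞ := fun x => ENNReal.ofReal (C / R x ^ n)
  have hw : Measurable w :=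
    ((hRm.pow_const 2).div (hRm.pow_const n)).ennreal_ofReal
  have hw' : Measurable w' :=
    (measurable_const.div (hRm.pow_const n)).ennreal_ofReal
  let SA : Set (E n × E n) := {p | dist p.1 p.2 < R p.2 / 4}
  let SB : Set (E n × E n) := {p | dist p.2 p.1 < R p.1 / 2}
  have hSA : MeasurableSet SA := by
    refine (isOpen_lt ?_ ?_).measurableSet
    · exact continuous_fst.dist continuous_snd
    · exact (hRc.comp continuous_snd).div_const 4
  have hSB : MeasurableSet SB := by
    refine (isOpen_lt ?_ ?_).measurableSet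
    · exact continuous_snd.dist continuous_fst
    · exact (hRc.comp continuous_fst).div_const 2
  let k : E n × E n → ℝ≥0∞ := SA.indicator (fun p => w p.2)
  let k' : E n × E n → ℝ≥0∞ := SB.indicator (fun p => w' p.1)
  have hk : Measurable k := (hw.comp measurable_snd).indicator hSA
  have hk' : Measurable k' := (hw'.comp measurable_fst).indicator hSB
  have ks : ∀ x : E n, Measurable (fun x0 => k (x, x0)) := fun x =>
    hk.comp (measurable_const.prodMk measurable_id)
  have ks2 : ∀ x0 : E n, Measurable (fun x => k (x, x0)) := fun x0 =>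
    hk.comp (measurable_id.prodMk measurable_const)
  have ks' : ∀ y : E n, Measurable (fun x0 => k' (x0, y)) := fun y =>
    hk'.comp (measurable_id.prodMk measurable_const)
  -- step 1
  have step1 : ∀ x ∈ ball (0 : E n) 1, ENNReal.ofReal (R x ^ 2) ≤
      ENNReal.ofReal (25 / 16 * 6 ^ n / c') * ∫⁻ x0 in ball (0 : E n) (5 / 4), k (x, x0) := by
    intro x hx
    have hb : 0 < R x := b2 x (ball_subset_ball (by norm_num) hx)
    have hb8 := (hR x).2
    have hsub : ball x (R x / 5) ⊆ ball (0 : E n) (5 / 4) := by
      intro y hy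
      rw [mem_ball] at hy hx ⊢
      have := dist_triangle y x 0
      linarith
    have h1 : ∫⁻ x0 in ball x (R x / 5), ENNReal.ofReal ((4 / 5 * R x) ^ 2 / (6 / 5 * R x) ^ n) ≤
        ∫⁻ x0 in ball (0 : E n) (5 / 4), k (x, x0) := by
      refine le_trans ?_ (lintegral_mono_set hsub)
      refine setLIntegral_mono' measurableSet_ball ?_
      intro y hy
      rw [mem_ball] at hy
      have l1 := lip x y
      have l2 := lip y x
      have d1 : dist x y = dist y x := dist_comm x y
      have m1 : (x, y) ∈ SA := by
        show dist x y < R y / 4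
        linarith
      show _ ≤ SA.indicator (fun p => w p.2) (x, y)
      rw [indicator_of_mem m1]
      show ENNReal.ofReal _ ≤ ENNReal.ofReal (R y ^ 2 / R y ^ n)
      apply ENNReal.ofReal_le_ofReal
      have y0 : 0 < R y := by linarith
      have a1 : (4 / 5 * R x) ^ 2 ≤ R y ^ 2 := pow_le_pow_left₀ (by positivity) (by linarith) 2
      have a2 : R y ^ n ≤ (6 / 5 * R x) ^ n := pow_le_pow_left₀ y0.le (by linarith) n
      exact div_le_div₀ (by positivity) a1 (by positivity) a2
    rw [setLIntegral_const, vol_ball n x _ (by positivity), hcE,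
      ← ENNReal.ofReal_mul (by positivity), ← ENNReal.ofReal_mul (by positivity)] at h1
    refine le_trans ?_ (mul_le_mul_right h1 _)
    rw [← ENNReal.ofReal_mul (by positivity)]
    apply ENNReal.ofReal_le_ofReal
    have e1 : (R x / 5) ^ n / (6 / 5 * R x) ^ n = (1 / 6) ^ n := by
      rw [← div_pow]
      congr 1
      field_simp
    have e2 : (6 : ℝ) ^ n * (1 / 6) ^ n = 1 := by
      rw [← mul_pow]
      norm_num
    have e3 : 25 / 16 * 6 ^ n / c' * ((4 / 5 * R x) ^ 2 / (6 / 5 * R x) ^ n *
        ((R x / 5) ^ n * c')) = R x ^ 2 := by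
      calc 25 / 16 * 6 ^ n / c' * ((4 / 5 * R x) ^ 2 / (6 / 5 * R x) ^ n *
          ((R x / 5) ^ n * c')) = 25 / 16 * (4 / 5 * R x) ^ 2 * (6 ^ n *
          ((R x / 5) ^ n / (6 / 5 * R x) ^ n)) * (c' / c') := by ring
        _ = R x ^ 2 := by
          rw [e1, e2, div_self hcp.ne']
          ring
    rw [e3]
  -- step 2
  have step2 : ∫⁻ x in ball (0 : E n) 1, ENNReal.ofReal (R x ^ 2) * h x ≤
      ENNReal.ofReal (25 / 16 * 6 ^ n / c') *
        ∫⁻ x0 in ball (0 : E n) (5 / 4), ∫⁻ x in ball (0 : E n) 1, k (x, x0) * h x := by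
    have m1 : Measurable (fun x => ∫⁻ x0 in ball (0 : E n) (5 / 4), k (x, x0) * h x) := by
      have : Measurable (fun p : E n × E n => k (p.1, p.2) * h p.1) :=
        hk.mul (hh.comp measurable_fst)
      exact this.lintegral_prod_right'
    calc ∫⁻ x in ball (0 : E n) 1, ENNReal.ofReal (R x ^ 2) * h x
        ≤ ∫⁻ x in ball (0 : E n) 1, ENNReal.ofReal (25 / 16 * 6 ^ n / c') *
          ∫⁻ x0 in ball (0 : E n) (5 / 4), k (x, x0) * h x := by
          refine setLIntegral_mono' measurableSet_ball ?_
          intro x hx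
          rw [lintegral_mul_const _ (ks x), ← mul_assoc]
          exact mul_le_mul_left (step1 x hx) _
      _ = ENNReal.ofReal (25 / 16 * 6 ^ n / c') * ∫⁻ x in ball (0 : E n) 1,
          ∫⁻ x0 in ball (0 : E n) (5 / 4), k (x, x0) * h x := lintegral_const_mul _ m1
      _ = _ := by
          congr 1
          apply lintegral_lintegral_swap
          have : Measurable (fun p : E n × E n => k (p.1, p.2) * h p.1) :=
            hk.mul (hh.comp measurable_fst)
          exact this.aemeasurable
  -- step 3
  have step3 : ∀ x0 ∈ ball (0 : E n) (5 / 4), ∫⁻ x in ball (0 : E n) 1, k (x, x0) * h x ≤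
      ∫⁻ y, k' (x0, y) * e y := by
    intro x0 hx0
    have hb : 0 < R x0 := b2 x0 (ball_subset_ball (by norm_num) hx0)
    have e1 : ∀ x, k (x, x0) * h x = (ball x0 (R x0 / 4)).indicator (fun x => w x0 * h x) x := by
      intro x
      by_cases hx : x ∈ ball x0 (R x0 / 4)
      · have m : (x, x0) ∈ SA := hx
        rw [indicator_of_mem hx]
        show SA.indicator (fun p => w p.2) (x, x0) * h x = _
        rw [indicator_of_mem m]
      · have m : (x, x0) ∉ SA := hx
        rw [indicator_of_notMem hx]
        show SA.indicator (fun p => w p.2) (x, x0) * h x = _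
        rw [indicator_of_notMem m, zero_mul]
    have e2 : ∀ y, k' (x0, y) * e y =
        (ball x0 (R x0 / 2)).indicator (fun y => w' x0 * e y) y := by
      intro x
      by_cases hx : x ∈ ball x0 (R x0 / 2)
      · have m : (x0, x) ∈ SB := hx
        rw [indicator_of_mem hx]
        show SB.indicator (fun p => w' p.1) (x0, x) * e x = _
        rw [indicator_of_mem m]
      · have m : (x0, x) ∉ SB := hx
        rw [indicator_of_notMem hx]
        show SB.indicator (fun p => w' p.1) (x0, x) * e x = _
        rw [indicator_of_notMem m, zero_mul]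
    calc ∫⁻ x in ball (0 : E n) 1, k (x, x0) * h x
        ≤ ∫⁻ x, k (x, x0) * h x := setLIntegral_le_lintegral _ _
      _ = w x0 * ∫⁻ x in ball x0 (R x0 / 4), h x := by
          rw [lintegral_congr e1, lintegral_indicator measurableSet_ball,
            lintegral_const_mul _ hh]
      _ ≤ w x0 * (ENNReal.ofReal (C / R x0 ^ 2) * ∫⁻ y in ball x0 (R x0 / 2), e y) :=
          mul_le_mul_right (hloc x0 hx0) _
      _ = w' x0 * ∫⁻ y in ball x0 (R x0 / 2), e y := by
          rw [← mul_assoc]
          congr 1
          show ENNReal.ofReal (R x0 ^ 2 / R x0 ^ n) * ENNReal.ofReal (C / R x0 ^ 2) =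
            ENNReal.ofReal (C / R x0 ^ n)
          rw [← ENNReal.ofReal_mul (by positivity)]
          congr 1
          field_simp
      _ = ∫⁻ y, k' (x0, y) * e y := by
          rw [lintegral_congr e2, lintegral_indicator measurableSet_ball,
            lintegral_const_mul _ he]
  -- step 4
  have step4 : ∀ y, ∫⁻ x0 in ball (0 : E n) (5 / 4), k' (x0, y) ≤
      (ball (0 : E n) (3 / 2)).indicator (fun _ => ENNReal.ofReal (C * (3 / 2) ^ n * c')) y := by
    intro y
    by_cases hy : y ∈ ball (0 : E n) (3 / 2)
    · rw [indicator_of_mem hy]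
      have hb : 0 < R y := b2 y hy
      have h1 : ∀ x0 ∈ ball (0 : E n) (5 / 4), k' (x0, y) ≤
          (ball y (R y)).indicator (fun _ => ENNReal.ofReal (C * (3 / 2) ^ n / R y ^ n)) x0 := by
        intro x0 hx0
        have hb0 : 0 < R x0 := b2 x0 (ball_subset_ball (by norm_num) hx0)
        show SB.indicator (fun p => w' p.1) (x0, y) ≤ _
        by_cases m : (x0, y) ∈ SB
        · rw [indicator_of_mem m]
          have m' : dist y x0 < R x0 / 2 := m
          have l1 := lip y x0
          have l2 := lip x0 y
          have d1 : dist x0 y = dist y x0 := dist_comm x0 y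
          have m2 : x0 ∈ ball y (R y) := by
            rw [mem_ball]
            linarith
          rw [indicator_of_mem m2]
          show ENNReal.ofReal (C / R x0 ^ n) ≤ _
          apply ENNReal.ofReal_le_ofReal
          have a1 : R y ^ n ≤ (3 / 2) ^ n * R x0 ^ n := by
            rw [← mul_pow]
            exact pow_le_pow_left₀ hb.le (by linarith) n
          rw [div_le_div_iff₀ (by positivity) (by positivity)]
          calc C * R y ^ n ≤ C * ((3 / 2) ^ n * R x0 ^ n) := mul_le_mul_of_nonneg_left a1 hC
            _ = C * (3 / 2) ^ n * R x0 ^ n := by ring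
        · rw [indicator_of_notMem m]
          exact zero_le
      calc ∫⁻ x0 in ball (0 : E n) (5 / 4), k' (x0, y)
          ≤ ∫⁻ x0 in ball (0 : E n) (5 / 4),
            (ball y (R y)).indicator (fun _ => ENNReal.ofReal (C * (3 / 2) ^ n / R y ^ n)) x0 :=
            setLIntegral_mono' measurableSet_ball h1
        _ ≤ ∫⁻ x0, (ball y (R y)).indicator
            (fun _ => ENNReal.ofReal (C * (3 / 2) ^ n / R y ^ n)) x0 :=
            setLIntegral_le_lintegral _ _
        _ = ENNReal.ofReal (C * (3 / 2) ^ n * c') := by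
            rw [lintegral_indicator measurableSet_ball, setLIntegral_const, vol_ball n y _ hb,
              hcE, ← ENNReal.ofReal_mul (by positivity), ← ENNReal.ofReal_mul (by positivity)]
            congr 1
            field_simp
    · rw [indicator_of_notMem hy]
      have h1 : ∀ x0 ∈ ball (0 : E n) (5 / 4), k' (x0, y) = 0 := by
        intro x0 hx0
        have m : (x0, y) ∉ SB := by
          intro m
          have m' : dist y x0 < R x0 / 2 := m
          apply hy
          rw [mem_ball] at hx0 ⊢
          have := dist_triangle y x0 0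
          have := (hR x0).2
          linarith
        exact indicator_of_notMem m _
      rw [setLIntegral_congr_fun measurableSet_ball h1]
      simp
  -- conclusion
  have m2 : Measurable (fun p : E n × E n => k' (p.1, p.2) * e p.2) :=
    hk'.mul (he.comp measurable_snd)
  calc ∫⁻ x in ball (0 : E n) 1, ENNReal.ofReal (R x ^ 2) * h x
      ≤ ENNReal.ofReal (25 / 16 * 6 ^ n / c') *
        ∫⁻ x0 in ball (0 : E n) (5 / 4), ∫⁻ x in ball (0 : E n) 1, k (x, x0) * h x := step2
    _ ≤ ENNReal.ofReal (25 / 16 * 6 ^ n / c') *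
        ∫⁻ x0 in ball (0 : E n) (5 / 4), ∫⁻ y, k' (x0, y) * e y :=
        mul_le_mul_right (setLIntegral_mono' measurableSet_ball step3) _
    _ = ENNReal.ofReal (25 / 16 * 6 ^ n / c') *
        ∫⁻ y, ∫⁻ x0 in ball (0 : E n) (5 / 4), k' (x0, y) * e y := by
        congr 1
        exact lintegral_lintegral_swap (f := fun x0 y => k' (x0, y) * e y) m2.aemeasurable
    _ ≤ ENNReal.ofReal (25 / 16 * 6 ^ n / c') * ∫⁻ y, (ball (0 : E n) (3 / 2)).indicator
        (fun y => ENNReal.ofReal (C * (3 / 2) ^ n * c') * e y) y := by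
        refine mul_le_mul_right (lintegral_mono fun y => ?_) _
        show ∫⁻ x0 in ball (0 : E n) (5 / 4), k' (x0, y) * e y ≤ _
        rw [lintegral_mul_const _ (ks' y)]
        refine (mul_le_mul_left (step4 y) _).trans ?_
        by_cases hy : y ∈ ball (0 : E n) (3 / 2)
        · rw [indicator_of_mem hy, indicator_of_mem hy]
        · rw [indicator_of_notMem hy, indicator_of_notMem hy, zero_mul]
    _ = ENNReal.ofReal (25 / 16 * 9 ^ n * C) * ∫⁻ x in ball (0 : E n) (3 / 2), e x := by
        rw [lintegral_indicator measurableSet_ball, lintegral_const_mul _ he, ← mul_assoc,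
          ← ENNReal.ofReal_mul (by positivity)]
        congr 2
        have e1 : (6 : ℝ) ^ n * (3 / 2) ^ n = 9 ^ n := by
          rw [← mul_pow]
          norm_num
        calc 25 / 16 * 6 ^ n / c' * (C * (3 / 2) ^ n * c') =
            25 / 16 * (6 ^ n * (3 / 2) ^ n) * C * (c' / c') := by ring
          _ = 25 / 16 * 9 ^ n * C := by rw [e1, div_self hcp.ne', mul_one]

end Pool.Agent.H35.SH
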